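import Pool.Agent.CITTrans.SysFinal

set_option autoImplicit false

namespace Pool.Agent.Results.MP_b7926e_nt.SpreadSystems

open Pool.Agent.CITTrans

/-- Systems of `k` polynomial equations with prescribed nonempty supports and rational coefficients
with spread out valuations: all their intersections with torsion cosets are proper, and every
irreducible component has dimension `n - k` and no atypical subvariety. This holds for all integer
coefficient vectors in some residue class. -/
theorem result :
    ∀ (n k : ℕ) (A : Fin k → Finset (Fin n → ℕ)), (∀ j, (A j).Nonempty) →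
      (∀ c : ((j : Fin k) × A j) → ℚ, (∀ z, c z ≠ 0) →
        SpreadOn (∏ j, (A j).card * ((A j).card - 1)) c →
        ProperIntersections k (zeros A c) ∧
        ∀ W : Set (Fin n → ℂ), IsComponent (zeros A c) W →
          ringKrullDim (MvPolynomial (Fin n) ℂ ⧸
              (⨅ x ∈ W, RingHom.ker (MvPolynomial.eval x : MvPolynomial (Fin n) ℂ →+* ℂ)))
            + (k : WithBot ℕ∞) = n ∧
          NoAtypical W) ∧
      ∃ (Q : ℕ) (a : ((j : Fin k) × A j) → ℤ), 0 < Q ∧
        ∀ c : ((j : Fin k) × A j) → ℤ, (∀ z, (Q : ℤ) ∣ c z - a z) →
          (∀ z, c z ≠ 0) ∧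
          SpreadOn (∏ j, (A j).card * ((A j).card - 1)) (fun z => (c z : ℚ)) := by
  intro n k A hA
  refine ⟨fun c hc hs => ?_, exists_progression_on _⟩
  have h := sys_main A hA c hc hs
  exact ⟨h, fun W hW => component_main A c h W hW⟩

end Pool.Agent.Results.MP_b7926e_nt.SpreadSystems
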